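import Pool.Agent.ASO.StmtsL

/-!
# Squad ASO, row LTB: a basis of the plane
-/

namespace Pool.Agent.PP.SO.H37

theorem ltb : LTbStmt := by
  intro ℓ _ V _ _ hrk c w hc hw
  have hli : LinearIndependent (ZMod ℓ) ![w, c] := by
    rw [LinearIndependent.pair_iff]
    intro s t hst
    have hs : s = 0 := by
      by_contra hs
      refine hw (-(s⁻¹ * t)) ?_
      have h1 : w = s⁻¹ • (s • w) := by rw [smul_smul, inv_mul_cancel₀ hs, one_smul]
      have h2 : s • w = -(t • c) := eq_neg_of_add_eq_zero_left hst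
      rw [h1, h2, smul_neg, smul_smul, neg_smul]
    refine ⟨hs, ?_⟩
    rw [hs, zero_smul, zero_add] at hst
    exact (smul_eq_zero.1 hst).resolve_right hc
  have hcard : Fintype.card (Fin 2) = Module.finrank (ZMod ℓ) V := by rw [hrk]; rfl
  have hfin : Module.Finite (ZMod ℓ) V := Module.finite_of_finrank_pos (by rw [hrk]; norm_num)
  let b : Module.Basis (Fin 2) (ZMod ℓ) V := basisOfLinearIndependentOfCardEqFinrank hli hcard
  have hb : ⇑b = ![w, c] := coe_basisOfLinearIndependentOfCardEqFinrank hli hcard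
  have hb0 : b 0 = w := by rw [hb]; rfl
  have hb1 : b 1 = c := by rw [hb]; rfl
  refine ⟨fun v => ⟨b.repr v 0, b.repr v 1, ?_⟩, fun x y hxy => ?_, fun x y => ?_⟩
  · have h1 := b.sum_repr v
    rw [Fin.sum_univ_two, hb0, hb1] at h1
    exact h1.symm
  · exact LinearIndependent.pair_iff.1 hli x y hxy
  · refine ⟨b.constr (ZMod ℓ) ![x, y], ?_, ?_⟩
    · rw [← hb0, Module.Basis.constr_basis]; rfl
    · rw [← hb1, Module.Basis.constr_basis]; rfl

end Pool.Agent.PP.SO.H37
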